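import Pool.Agent.Y515.CntT.Low

/-!
The sum over the vectors with constant data, and over those with a short lattice vector.
-/

set_option autoImplicit false
set_option linter.unusedSectionVars false

open Polynomial Finset
open Pool.Agent.Y709 Pool.Agent.Y515.Cnt Pool.Agent.Y515.CntG

namespace Pool.Agent.Y515.CntT

variable {k : Type} [Field k] [Fintype k]

/-- the sum over the vectors with constant data -/
theorem sum_const2 {r q f M N ρ : ℕ} (hqk : Fintype.card k = q) (hr : 1 ≤ r)
    {Φ : Matrix (Fin r) (Fin r) k[X]} (hdet : Φ.det ≠ 0)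
    (hq0 : 0 < q) (hM : 4 * r ^ 2 + 8 ≤ M) (hρr : r + 1 ≤ ρ)
    (hN : N + 1 = (q - 1) * M + ρ) (T : Finset (Fin r → k[X]))
    (n : (Fin r → k[X]) → Fin r → k[X]) (A : (Fin r → k[X]) → Fin r → Fin r → k[X])
    (hT : ∀ w ∈ T, (∀ b, w b ∈ PF k M) ∧ Dt q N (M - 1 + f) (mv Φ w) (n w) (A w) ∧
      ∀ j, M - 1 + f < (n w j).natDegree + q) :
    ∑ w ∈ T, ((KerF q N (mv Φ w)).card : ℝ) ≤ (q : ℝ) ^ (N + 1) + (q : ℝ) ^ N := by
  classical
  have hqR : (1 : ℝ) ≤ (q : ℝ) := by exact_mod_cast hq0
  have hM1 : 1 ≤ M := by omega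
  -- combinatorial bound
  have h1 : ∑ w ∈ T, (Cset (M - ρ) (mv Φ w)).card ≤ q ^ (r * M) + q ^ r * q ^ (M * (r - 1) + (M - ρ)) := by
    have h2 : ∑ w ∈ T, (Cset (M - ρ) (mv Φ w)).card = ∑ c : Fin r → k,
        (T.filter (fun w => ∑ i, C (c i) * mv Φ w i ∈ PF k (M - ρ))).card := by
      simp only [Cset, Finset.card_filter]
      rw [Finset.sum_comm]
    rw [h2, ← Finset.add_sum_erase Finset.univ _ (Finset.mem_univ (0 : Fin r → k))]
    apply Nat.add_le_add
    · refine (Finset.card_le_card (Finset.filter_subset _ _)).trans ?_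
      have h3 : T ⊆ Fintype.piFinset (fun _ : Fin r => PF k M) := by
        intro w hw
        rw [Fintype.mem_piFinset]
        exact (hT w hw).1
      refine (Finset.card_le_card h3).trans (le_of_eq ?_)
      rw [Fintype.card_piFinset, Finset.prod_const, card_PF, Finset.card_univ, Fintype.card_fin,
        hqk, ← pow_mul, mul_comm]
    · calc _ ≤ ∑ c ∈ Finset.univ.erase (0 : Fin r → k), q ^ (M * (r - 1) + (M - ρ)) := by
            apply Finset.sum_le_sum
            intro c hc
            apply card_comb hqk hdet c (Finset.ne_of_mem_erase hc)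
            intro w hw
            rw [Finset.mem_filter] at hw
            exact ⟨(hT w hw.1).1, hw.2⟩
        _ ≤ ∑ c : Fin r → k, q ^ (M * (r - 1) + (M - ρ)) :=
            Finset.sum_le_sum_of_subset (Finset.erase_subset _ _)
        _ = _ := by
            rw [Finset.sum_const, Finset.card_univ, smul_eq_mul, Fintype.card_fun,
              Fintype.card_fin, hqk]
  have h2 : q ^ r * q ^ (M * (r - 1) + (M - ρ)) * q ≤ q ^ (r * M) := by
    rw [← pow_add, ← pow_succ]
    apply Nat.pow_le_pow_right hq0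
    obtain ⟨a, rfl⟩ : ∃ a, r = a + 1 := ⟨r - 1, by omega⟩
    rw [Nat.add_sub_cancel]
    have e : (a + 1) * M = M * a + M := by ring
    rw [e]
    have : a + 2 ≤ M := by nlinarith
    omega
  have h3 : (∑ w ∈ T, ((KerF q N (mv Φ w)).card : ℝ)) * (q : ℝ) ^ (r * M) ≤
      (q : ℝ) ^ (N + 1) * ∑ w ∈ T, ((Cset (M - ρ) (mv Φ w)).card : ℝ) := by
    rw [Finset.sum_mul, Finset.mul_sum]
    apply Finset.sum_le_sum
    intro w hw
    obtain ⟨_, hd, hbig⟩ := hT w hw
    exact_mod_cast ker_const hqk hq0 hM1 hN (mv Φ w) (n w) (A w) hd hbig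
  have h4 : ∑ w ∈ T, ((Cset (M - ρ) (mv Φ w)).card : ℝ) ≤
      (q : ℝ) ^ (r * M) + (q : ℝ) ^ (r * M) / q := by
    have h5 : ∑ w ∈ T, ((Cset (M - ρ) (mv Φ w)).card : ℝ) ≤
        (q : ℝ) ^ (r * M) + (q : ℝ) ^ r * (q : ℝ) ^ (M * (r - 1) + (M - ρ)) := by
      exact_mod_cast h1
    refine h5.trans (add_le_add le_rfl ?_)
    rw [le_div_iff₀ (by positivity)]
    exact_mod_cast h2
  have h5 := h3.trans (mul_le_mul_of_nonneg_left h4 (by positivity))
  have hpos : (0 : ℝ) < (q : ℝ) ^ (r * M) := by positivity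
  have h6 : (q : ℝ) ^ (N + 1) * ((q : ℝ) ^ (r * M) + (q : ℝ) ^ (r * M) / q) =
      ((q : ℝ) ^ (N + 1) + (q : ℝ) ^ N) * (q : ℝ) ^ (r * M) := by
    have hq' : (q : ℝ) ≠ 0 := by positivity
    field_simp
    ring
  rw [h6] at h5
  exact le_of_mul_le_mul_right h5 hpos


/-- two polynomials with the same remainder modulo a power of the variable -/
theorem eq_of_dvd_sub {a : ℕ} {x y : k[X]} (h : X ^ a ∣ x - y) (hlow : ∀ m, a ≤ m → x.coeff m = y.coeff m) :
    x = y := by
  ext m
  rcases Nat.lt_or_ge m a with hm | hm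
  · have h1 := (X_pow_dvd_iff.1 h) m hm
    rw [coeff_sub] at h1
    exact sub_eq_zero.1 h1
  · exact hlow m hm

/-- the number of vectors with given degrees of the lattice data when the second row is divisible by
a power of the variable -/
theorem fiber_div {q f a M N : ℕ} (hqk : Fintype.card k = q) (hq0 : 0 < q)
    {Φ : Matrix (Fin 2) (Fin 2) k[X]} (hdet : Φ.det ≠ 0) (T : Finset (Fin 2 → k[X]))
    (n : (Fin 2 → k[X]) → Fin 2 → k[X]) (A : (Fin 2 → k[X]) → Fin 2 → Fin 2 → k[X])
    (hT : ∀ w ∈ T, Dt q N (M - 1 + f) (mv Φ w) (n w) (A w)) (l : Fin 2 → ℕ)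
    (hl : ∀ w ∈ T, ∀ j, (n w j).natDegree = l j) (j' : Fin 2) (ha : a ≤ l j' + 1)
    (hdiv : ∀ w ∈ T, X ^ a ∣ mv Φ w 1)
    (hc : ∀ w ∈ T, ∃ c : k, c ≠ 0 ∧ A w 1 j' = C c) :
    T.card * q ^ a ≤ q ^ (∑ j, ((l j + 1) + 2 * ((M - 1 + f - l j) / q + 1))) := by
  classical
  have h1 : (T ×ˢ PF k a).card ≤ ((Fintype.piFinset (fun j : Fin 2 => PF k (l j + 1))) ×ˢ
      (Fintype.piFinset (fun _ : Fin 2 => Fintype.piFinset (fun j : Fin 2 =>
        PF k ((M - 1 + f - l j) / q + 1))))).card := by
    apply Finset.card_le_card_of_injOn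
      (fun x => (Function.update (n x.1) j' (n x.1 j' + x.2), A x.1))
    · intro x hx
      rw [Finset.mem_coe, Finset.mem_product] at hx
      obtain ⟨hw, hx2⟩ := hx
      rw [Finset.mem_coe, Finset.mem_product, Fintype.mem_piFinset, Fintype.mem_piFinset]
      refine ⟨?_, ?_⟩
      · intro j
        show Function.update (n x.1) j' (n x.1 j' + x.2) j ∈ PF k (l j + 1)
        by_cases hj : j = j'
        · subst hj
          rw [Function.update_self]
          apply add_mem_PF
          · rw [mem_PF_succ, ← hl x.1 hw j]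
          · exact PF_mono ha hx2
        · rw [Function.update_of_ne hj, mem_PF_succ, ← hl x.1 hw j]
      · intro i
        rw [Fintype.mem_piFinset]
        intro j
        rcases (hT x.1 hw).hA i j with h | h
        · show A x.1 i j ∈ _
          rw [h]; exact zero_mem_PF _
        · show A x.1 i j ∈ _
          rw [mem_PF_succ, Nat.le_div_iff_mul_le hq0, mul_comm, ← hl x.1 hw j]
          omega
    · intro x hx y hy hxy
      rw [Finset.mem_coe, Finset.mem_product] at hx hy
      simp only [Prod.mk.injEq] at hxy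
      obtain ⟨hn, hA⟩ := hxy
      have hne : ∀ j, j ≠ j' → n x.1 j = n y.1 j := by
        intro j hj
        have := congrFun hn j
        rw [Function.update_of_ne hj, Function.update_of_ne hj] at this
        exact this
      have hsum : n x.1 j' + x.2 = n y.1 j' + y.2 := by
        have := congrFun hn j'
        rw [Function.update_self, Function.update_self] at this
        exact this
      obtain ⟨c, hc0, hcA⟩ := hc x.1 hx.1
      -- divisibility of the difference
      have hdvd : X ^ a ∣ n x.1 j' - n y.1 j' := by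
        have h2 : mv Φ x.1 1 - mv Φ y.1 1 = C c * (n x.1 j' - n y.1 j') := by
          rw [(hT x.1 hx.1).hv 1, (hT y.1 hy.1).hv 1, ← hA, ← Finset.sum_sub_distrib,
            Finset.sum_eq_single j']
          · rw [hcA, expand_C]; ring
          · intro j _ hj
            rw [hne j hj, sub_self]
          · intro h; exact absurd (Finset.mem_univ j') h
        have h3 : X ^ a ∣ C c * (n x.1 j' - n y.1 j') := by
          rw [← h2]; exact dvd_sub (hdiv x.1 hx.1) (hdiv y.1 hy.1)
        have h4 : n x.1 j' - n y.1 j' = C c⁻¹ * (C c * (n x.1 j' - n y.1 j')) := by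
          rw [← mul_assoc, ← C_mul, inv_mul_cancel₀ hc0, C_1, one_mul]
        rw [h4]
        exact Dvd.dvd.mul_left h3 _
      have hnj : n x.1 j' = n y.1 j' := by
        apply eq_of_dvd_sub hdvd
        intro m hm
        have h5 := congrArg (fun p : k[X] => p.coeff m) hsum
        simp only [coeff_add] at h5
        rw [mem_PF.1 hx.2 m hm, mem_PF.1 hy.2 m hm, add_zero, add_zero] at h5
        exact h5
      have hnn : n x.1 = n y.1 := by
        ext1 j
        by_cases hj : j = j'
        · rw [hj]; exact hnj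
        · exact hne j hj
      have hx2 : x.2 = y.2 := by
        rw [hnj] at hsum
        exact add_left_cancel hsum
      refine Prod.ext ?_ hx2
      apply mv_injective hdet
      ext1 i
      rw [(hT x.1 hx.1).hv i, (hT y.1 hy.1).hv i, hnn, hA]
  rw [Finset.card_product, Finset.card_product, Fintype.card_piFinset, Fintype.card_piFinset,
    Finset.prod_const, Fintype.card_piFinset, Finset.card_univ, Fintype.card_fin] at h1
  rw [card_PF, hqk] at h1
  refine h1.trans (le_of_eq ?_)
  simp only [card_PF, hqk]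
  rw [← Finset.prod_pow_eq_pow_sum, ← Finset.prod_pow, ← Finset.prod_mul_distrib]
  apply Finset.prod_congr rfl
  intro j _
  rw [← pow_mul, ← pow_add]
  congr 1
  ring

/-- exponents in one column -/
theorem arith_col {q f M N ρ l : ℕ} (hq : 40 ≤ q) (hM : 1 ≤ M)
    (hN : N + 1 = (q - 1) * M + ρ) (hl : l ≤ M - 1 + f) :
    (l + 1) + 2 * ((M - 1 + f - l) / q + 1) + (M - 1 + f - l) ≤
      f + 3 + (N + 1 + l) / q + 3 * ((M - 1 + f - l) / q) := by
  have hq0 : 0 < q := by omega
  set a := (M - 1 + f - l) / q with ha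
  have ha2 : M - 1 + f - l < q * a + q := by
    have h0 := Nat.div_add_mod (M - 1 + f - l) q
    rw [← ha] at h0
    have h1 := Nat.mod_lt (M - 1 + f - l) hq0
    omega
  have hE : M - (a + 1) ≤ (N + 1 + l) / q := by
    rw [Nat.le_div_iff_mul_le hq0, Nat.sub_mul]
    obtain ⟨t, rfl⟩ : ∃ t, q = t + 1 := ⟨q - 1, by omega⟩
    rw [Nat.add_sub_cancel] at hN
    have e1 : M * (t + 1) = t * M + M := by ring
    have e2 : (a + 1) * (t + 1) = (t + 1) * a + (t + 1) := by ring
    rw [e1, e2]
    omega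
  omega

end Pool.Agent.Y515.CntT
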