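import Pool.Agent.Y515.CntG.Red

/-!
The sum over the vectors whose components do not span, rank two; lattice data.
-/

set_option autoImplicit false
set_option linter.unusedSectionVars false

open Polynomial Finset
open Pool.Agent.Y709 Pool.Agent.Y515.Cnt Pool.Agent.Y515.CntG

namespace Pool.Agent.Y515.CntT

variable {k : Type} [Field k] [Fintype k]

theorem arith_low2 {q f M N ρ : ℕ} (hq : 40 ≤ q) (hf : f < q)
    (hM : q ≤ M) (hN : N + 1 = (q - 1) * M + ρ) :
    ((M - 1 + f) / q + 1) * 2 + 2 ≤ (N + 1) / q := by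
  have hq0 : 0 < q := by omega
  have hF := floor_ge hq0 hN
  have h1 : (M - 1 + f) / q ≤ M / q + 1 := by
    have : (M - 1 + f) / q < M / q + 2 := by
      rw [Nat.div_lt_iff_lt_mul hq0]
      have h2 := Nat.div_add_mod M q
      have h3 := Nat.mod_lt M hq0
      have e : (M / q + 2) * q = q * (M / q) + 2 * q := by ring
      rw [e]
      omega
    omega
  have h2 : q * (M / q) ≤ M := Nat.mul_div_le M q
  have h3 : 40 * (M / q) ≤ q * (M / q) := Nat.mul_le_mul_right _ hq
  omega

theorem arith_cond2 {q M N ρ : ℕ} (hq : 40 ≤ q)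
    (hM : q ≤ M) (hN : N + 1 = (q - 1) * M + ρ) :
    2 * M < (2 + 1) * ((N + 1) / q) := by
  have hq0 : 0 < q := by omega
  have hF := floor_ge hq0 hN
  have h2 : q * (M / q) ≤ M := Nat.mul_div_le M q
  have h3 : 40 * (M / q) ≤ q * (M / q) := Nat.mul_le_mul_right _ hq
  omega

theorem sum_low2 {q f M N ρ : ℕ} (hqk : Fintype.card k = q)
    {Φ : Matrix (Fin 2) (Fin 2) k[X]} (hdet : Φ.det ≠ 0)
    (hirr : Irr Φ) (hf : ∀ i j, (Φ i j).natDegree ≤ f)
    (hq : 40 ≤ q) (hM : q ≤ M)
    (hρ1 : 1 ≤ ρ) (hρ : ρ + f ≤ q - 1)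
    (hN : N + 1 = (q - 1) * M + ρ) (T : Finset (Fin 2 → k[X]))
    (hT : ∀ w ∈ T, (∀ b, w b ∈ PF k M) ∧ w ≠ 0 ∧ (∃ D, IsFix q Φ D w) ∧
      ∃ L : Fin 2 → k[X], L ≠ 0 ∧ ∑ b, expand k q (L b) * mv Φ w b = 0) :
    ∑ w ∈ T, ((FixF q N Φ w).card : ℝ) ≤ (q : ℝ) ^ N := by
  classical
  have hq0 : 0 < q := by omega
  have hfq : f + 1 < q := by
    by_contra hcon
    have hf1 : ρ = 1 ∧ f + 2 = q ∨ f + 1 < q ∨ f + 1 = q := by omega
    omega
  have hM1 : 1 ≤ M := by omega
  have hqR : (1 : ℝ) ≤ (q : ℝ) := by exact_mod_cast hq0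
  choose s i hi hind hrel hs1 hs2 using fun w : Fin 2 → k[X] => exists_comps hq0 (mv Φ w)
  have hs : ∀ w ∈ T, s w = 1 := by
    intro w hw
    obtain ⟨_, h2, _, h4⟩ := hT w hw
    have a1 := hs2 w (mv_ne_zero hdet h2)
    have a2 := hs1 w h4
    omega
  -- number of vectors
  let u : (Fin 2 → k[X]) → Fin 1 → Fin 2 → k[X] := fun w l =>
    if h : (l : ℕ) < s w then vcp q (i w ⟨l, h⟩) (mv Φ w) else 0
  have himg : T.image u ⊆ Fintype.piFinset (fun _ : Fin 1 => Fintype.piFinset
      (fun _ : Fin 2 => PF k ((M - 1 + f) / q + 1))) := by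
    intro x hx
    rw [Finset.mem_image] at hx
    obtain ⟨w, hw, rfl⟩ := hx
    rw [Fintype.mem_piFinset]
    intro l
    rw [Fintype.mem_piFinset]
    intro b
    have hl : (l : ℕ) < s w := by rw [hs w hw]; exact l.2
    simp only [u]
    rw [dif_pos hl, mem_PF_succ]
    unfold vcp
    refine (natDegree_cp hq0 (hi w _) _).trans ?_
    exact Nat.div_le_div_right (natDegree_mv_le hf hM1 (hT w hw).1 b)
  have hfib : ∀ x ∈ T.image u, (T.filter (fun w => u w = x)).card ≤ (q ^ M) ^ (1 - 1) := by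
    intro x _
    apply fiber_le hq0 hqk hdet hirr hf hfq x
    intro w hw
    rw [Finset.mem_filter] at hw
    obtain ⟨hwT, hux⟩ := hw
    have hst := hs w hwT
    obtain ⟨h1, h2, ⟨D, hD⟩, L, hL0, hL⟩ := hT w hwT
    have hxl : ∀ (l : Fin (s w)), ∀ (h : (l : ℕ) < 1), x ⟨l, h⟩ = vcp q (i w l) (mv Φ w) := by
      intro l h
      rw [← hux]
      simp only [u]
      rw [dif_pos l.2]
    refine ⟨h1, h2, ?_, ?_, L, hL0, ?_⟩
    · intro L' hL'
      apply hrel
      intro l
      have h := hL' ⟨l, by rw [← hst]; exact l.2⟩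
      rw [hxl l] at h
      exact h
    · intro L' hL'
      have h := rel_cart hq0 hL' D
      rw [← h]
      apply Finset.sum_congr rfl
      intro b _
      congr 1
      exact (hD b).symm
    · intro l
      have hl : (l : ℕ) < s w := by rw [hst]; exact l.2
      have h := hxl ⟨l, hl⟩ l.2
      simp only [Fin.eta] at h
      rw [h]
      exact (rel_iff hq0 _ _).1 hL _ (hi w _)
  have hcard := Finset.card_le_mul_card_image T _ hfib
  have hcard2 := Finset.card_le_card himg
  rw [Fintype.card_piFinset, Finset.prod_const, Fintype.card_piFinset, Finset.prod_const,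
    card_PF, Finset.card_univ, Fintype.card_fin, Finset.card_univ, Fintype.card_fin, hqk] at hcard2
  have hcard3 : T.card ≤ q ^ (((M - 1 + f) / q + 1) * 2) := by
    refine (hcard.trans (Nat.mul_le_mul_left _ hcard2)).trans (le_of_eq ?_)
    rw [← pow_mul, ← pow_mul, ← pow_mul, ← pow_add]
    congr 1
    omega
  -- each term
  have hone : ∀ w ∈ T, ((FixF q N Φ w).card : ℝ) ≤
      (q : ℝ) ^ (N + 1) / (q : ℝ) ^ ((N + 1) / q) := by
    intro w hw
    have h1 := ker_indep hqk hq0 (N := N) (mv Φ w) (i w) (hi w) (hind w)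
    have h2 := card_fix_le (N := N) hq0 Φ w
    rw [hs w hw, one_mul] at h1
    rw [le_div_iff₀ (by positivity)]
    calc ((FixF q N Φ w).card : ℝ) * (q : ℝ) ^ ((N + 1) / q) ≤
        ((KerF q N (mv Φ w)).card : ℝ) * (q : ℝ) ^ ((N + 1) / q) := by
          apply mul_le_mul_of_nonneg_right _ (by positivity)
          exact_mod_cast h2
      _ ≤ (q : ℝ) ^ (N + 1) := by exact_mod_cast h1
  calc ∑ w ∈ T, ((FixF q N Φ w).card : ℝ) ≤
      ∑ w ∈ T, (q : ℝ) ^ (N + 1) / (q : ℝ) ^ ((N + 1) / q) := Finset.sum_le_sum hone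
    _ = (T.card : ℝ) * ((q : ℝ) ^ (N + 1) / (q : ℝ) ^ ((N + 1) / q)) := by
        rw [Finset.sum_const, nsmul_eq_mul]
    _ ≤ (q : ℝ) ^ (((M - 1 + f) / q + 1) * 2) *
        ((q : ℝ) ^ (N + 1) / (q : ℝ) ^ ((N + 1) / q)) := by
        apply mul_le_mul_of_nonneg_right _ (by positivity)
        exact_mod_cast hcard3
    _ ≤ (q : ℝ) ^ N := by
        rw [← mul_div_assoc, div_le_iff₀ (by positivity), ← pow_add, ← pow_add]
        apply pow_le_pow_right₀ hqR
        have := arith_low2 hq (by omega : f < q) hM hN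
        omega

/-- lattice data with a finer bound in the first row -/
theorem exists_dt2 {q f g M N ρ : ℕ} (hqk : Fintype.card k = q)
    (hlat : LatGen k q 2) (hq : 40 ≤ q) (hM : q ≤ M)
    (hρ : ρ + f ≤ q - 1) (hN : N + 1 = (q - 1) * M + ρ) (v : Fin 2 → k[X])
    (hv : ∀ i, (v i).natDegree ≤ M - 1 + f) (hv0 : (v 0).natDegree ≤ M - 1 + g)
    (hind : ∀ a : Fin 2 → k[X], ∑ i, expand k q (a i) * v i = 0 → a = 0) :
    ∃ (n : Fin 2 → k[X]) (A : Fin 2 → Fin 2 → k[X]), Dt q N (M - 1 + f) v n A ∧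
      ∀ j, A 0 j = 0 ∨ (n j).natDegree ≤ M - 1 + g := by
  classical
  have hq0 : 0 < q := by omega
  obtain ⟨n, A, _, _, hvA, hA, hcount⟩ := hlat v hind
  have hinj : ∀ a : Fin 2 → k[X], (∀ j, ∑ i, a i * A i j = 0) → a = 0 := by
    intro a ha
    apply hind
    have : ∑ i, expand k q (a i) * v i = ∑ j, expand k q (∑ i, a i * A i j) * n j := by
      simp only [hvA, Finset.mul_sum, map_sum, Finset.sum_mul, map_mul]
      rw [Finset.sum_comm]
      apply Finset.sum_congr rfl
      intro j _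
      apply Finset.sum_congr rfl
      intro i _
      ring
    rw [this]
    apply Finset.sum_eq_zero
    intro j _
    rw [ha j, map_zero, zero_mul]
  have hl : ∀ j, (n j).natDegree ≤ M - 1 + f := by
    intro j
    obtain ⟨i, hi⟩ : ∃ i, A i j ≠ 0 := by
      by_contra hcon
      push Not at hcon
      have hdet : (Matrix.of A).det = 0 := Matrix.det_eq_zero_of_column_eq_zero j hcon
      obtain ⟨a, ha0, ha⟩ := Matrix.exists_vecMul_eq_zero_iff.2 hdet
      apply ha0
      apply hinj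
      intro j'
      exact congrFun ha j'
    have h1 := (hA i j).resolve_left hi
    have h2 := hv i
    omega
  refine ⟨n, A, ⟨hvA, ?_, hinj, hl, ?_⟩, ?_⟩
  · intro i j
    rcases hA i j with h | h
    · exact Or.inl h
    · right
      exact h.trans (hv i)
  · have h1 := hcount N (by
      have h2 : ∑ j, (N + 1 + (n j).natDegree) / q ≤ ∑ _j : Fin 2, M := by
        apply Finset.sum_le_sum
        intro j _
        exact arith_le hq0 hρ (by omega) hN (hl j)
      rw [Finset.sum_const, Finset.card_univ, Fintype.card_fin, smul_eq_mul] at h2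
      exact lt_of_le_of_lt h2 (arith_cond2 hq hM hN))
    rw [natcard_ker, Nat.card_eq_fintype_card, hqk] at h1
    exact h1
  · intro j
    rcases hA 0 j with h | h
    · exact Or.inl h
    · right
      omega

end Pool.Agent.Y515.CntT
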