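import Pool.Agent.Y515.CntT.Short
import Pool.Agent.Y709.GStm2

/-!
The count in rank two with a row divisible by a power of the variable.
-/

set_option autoImplicit false
set_option linter.unusedSectionVars false

open Polynomial Finset
open Pool.Agent.Y709 Pool.Agent.Y515.Cnt Pool.Agent.Y515.CntG

namespace Pool.Agent.Y515.CntT

variable {k : Type} [Field k] [Fintype k]

theorem bad_irred2 {q a g M N ρ : ℕ} (hqk : Fintype.card k = q)
    (hlat : LatGen k q 2)
    {Φ : Matrix (Fin 2) (Fin 2) k[X]} (hdet : Φ.det ≠ 0)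
    (hirr : Irr Φ) (hf0 : ∀ j, (Φ 0 j).natDegree ≤ g) (hdiv : ∀ j, X ^ a ∣ Φ 1 j)
    (hf1 : ∀ j, (Φ 1 j).natDegree ≤ a + g)
    (hq : a + 2 * g + 40 ≤ q) (hM : q ≤ M)
    (hρr : 3 ≤ ρ) (hρ : ρ + (a + g) ≤ q - 1)
    (hN : N + 1 = (q - 1) * M + ρ) : (BadF q N Φ).card ≤ 2 * q ^ N := by
  classical
  have hq40 : 40 ≤ q := by omega
  have hq0 : 0 < q := by omega
  have hQ : (5 : ℝ) ≤ (q : ℝ) := by
    have : 5 ≤ q := by omega
    exact_mod_cast this
  have hQ0 : (0 : ℝ) < (q : ℝ) := by linarith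
  have hf : ∀ i j, (Φ i j).natDegree ≤ a + g := by
    intro i j
    fin_cases i
    · exact (hf0 j).trans (by omega)
    · exact hf1 j
  have hM1 : 1 ≤ M := by omega
  set T : Finset (Fin 2 → k[X]) := (Fintype.piFinset (fun _ : Fin 2 => PF k M)).filter
    (fun w => w ≠ 0 ∧ ∃ D : k[X], D.natDegree ≤ N ∧ IsFix q Φ D w) with hT
  have hTmem : ∀ w ∈ T, (∀ b, w b ∈ PF k M) ∧ w ≠ 0 ∧
      ∃ D : k[X], D.natDegree ≤ N ∧ IsFix q Φ D w := by
    intro w hw
    rw [hT, Finset.mem_filter, Fintype.mem_piFinset] at hw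
    exact hw
  -- double counting
  have hdouble : (q - 1) * (BadF q N Φ).card ≤ ∑ w ∈ T, (FixF q N Φ w).card := by
    have h1 : ∑ w ∈ T, (FixF q N Φ w).card =
        ∑ D ∈ PF k (N + 1), (T.filter (fun w => IsFix q Φ D w)).card := by
      simp only [FixF, Finset.card_filter]
      rw [Finset.sum_comm]
    rw [h1]
    calc (q - 1) * (BadF q N Φ).card = ∑ D ∈ BadF q N Φ, (q - 1) := by
          rw [Finset.sum_const, smul_eq_mul, mul_comm]
      _ ≤ ∑ D ∈ BadF q N Φ, (T.filter (fun w => IsFix q Φ D w)).card := by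
          apply Finset.sum_le_sum
          intro D hD
          rw [mem_BadF] at hD
          obtain ⟨hDN, w, hw0, hfix⟩ := hD
          have hcu : (Finset.univ.filter (fun c : k => c ≠ 0)).card = q - 1 := by
            rw [Finset.filter_ne', Finset.card_erase_of_mem (Finset.mem_univ _),
              Finset.card_univ, hqk]
          rw [← hcu]
          obtain ⟨b, hb⟩ : ∃ b, w b ≠ 0 := by
            by_contra hcon
            push Not at hcon
            exact hw0 (funext hcon)
          apply Finset.card_le_card_of_injOn (fun c : k => fun i => C c * w i)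
          · intro c hc
            rw [Finset.mem_coe, Finset.mem_filter] at hc
            have hfc := isFix_smul hq0 hfix c
            rw [Finset.mem_coe, Finset.mem_filter]
            refine ⟨?_, hfc⟩
            rw [hT, Finset.mem_filter, Fintype.mem_piFinset]
            refine ⟨fun i => fixed_bound (by omega) hf hρ (by omega) hN hDN hfc i, ?_, D, hDN, hfc⟩
            intro h0
            have h1 := congrFun h0 b
            have hC : (C c : k[X]) ≠ 0 := C_ne_zero.2 hc.2
            exact (mul_ne_zero hC hb) h1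
          · intro c _ c' _ h
            have h1 := congrFun h b
            exact C_injective (mul_right_cancel₀ hb h1)
      _ ≤ _ := by
          apply Finset.sum_le_sum_of_subset
          intro D hD
          rw [mem_BadF] at hD
          rw [mem_PF_succ]
          exact hD.1
  -- splitting the sum
  set T1 := T.filter (fun w => ∃ L : Fin 2 → k[X], L ≠ 0 ∧ ∑ b, expand k q (L b) * mv Φ w b = 0)
    with hT1
  set T2 := T.filter (fun w => ¬ ∃ L : Fin 2 → k[X], L ≠ 0 ∧ ∑ b, expand k q (L b) * mv Φ w b = 0)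
    with hT2
  have hdeg0 : ∀ w ∈ T, (mv Φ w 0).natDegree ≤ M - 1 + g := by
    intro w hw
    unfold mv
    apply natDegree_sum_le_of_forall_le
    intro j _
    refine natDegree_mul_le.trans ?_
    have h1 := hf0 j
    have h2 : (w j).natDegree ≤ M - 1 := by
      by_cases h0 : w j = 0
      · rw [h0, natDegree_zero]; exact Nat.zero_le _
      · have := natDegree_lt_of_mem_PF ((hTmem w hw).1 j) h0
        omega
    omega
  have hex : ∀ w ∈ T2, ∃ nA : (Fin 2 → k[X]) × (Fin 2 → Fin 2 → k[X]),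
      Dt q N (M - 1 + (a + g)) (mv Φ w) nA.1 nA.2 ∧
        ∀ j, nA.2 0 j = 0 ∨ (nA.1 j).natDegree ≤ M - 1 + g := by
    intro w hw
    rw [hT2, Finset.mem_filter] at hw
    have hww := hTmem w hw.1
    obtain ⟨n, A, h⟩ := exists_dt2 (f := a + g) (g := g) hqk hlat hq40 hM hρ hN (mv Φ w)
      (natDegree_mv_le hf hM1 hww.1) (hdeg0 w hw.1) (by
        intro a ha
        by_contra hne
        exact hw.2 ⟨a, hne, ha⟩)
    exact ⟨(n, A), h⟩
  have hnonempty : Nonempty ((Fin 2 → k[X]) × (Fin 2 → Fin 2 → k[X])) := ⟨(0, 0)⟩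
  choose! nA hnA using hex
  have s1 : ∑ w ∈ T1, ((FixF q N Φ w).card : ℝ) ≤ (q : ℝ) ^ N := by
    apply sum_low2 hqk hdet hirr hf hq40 hM (by omega) hρ hN
    intro w hw
    rw [hT1, Finset.mem_filter] at hw
    obtain ⟨h1, h2, D, _, hD⟩ := hTmem w hw.1
    exact ⟨h1, h2, ⟨D, hD⟩, hw.2⟩
  have s2 : ∑ w ∈ T2, ((KerF q N (mv Φ w)).card : ℝ) ≤
      ((q : ℝ) ^ (N + 1) + (q : ℝ) ^ N) + (q : ℝ) ^ N := by
    rw [← Finset.sum_filter_add_sum_filter_not T2
      (fun w => ∀ j, M - 1 + (a + g) < ((nA w).1 j).natDegree + q)]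
    apply add_le_add
    · apply sum_const2 hqk (by norm_num) hdet hq0 (by norm_num; omega) hρr hN _
        (fun w => (nA w).1) (fun w => (nA w).2)
      intro w hw
      rw [Finset.mem_filter] at hw
      refine ⟨?_, (hnA w hw.1).1, hw.2⟩
      have := hw.1
      rw [hT2, Finset.mem_filter] at this
      exact (hTmem w this.1).1
    · apply sum_short2 hqk hdet hdiv hq hM hN _ (fun w => (nA w).1) (fun w => (nA w).2)
      intro w hw
      rw [Finset.mem_filter] at hw
      refine ⟨(hnA w hw.1).1, (hnA w hw.1).2, ?_⟩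
      have := hw.2
      push Not at this
      exact this
  have hsum : ∑ w ∈ T, ((FixF q N Φ w).card : ℝ) ≤ (q : ℝ) ^ (N + 1) + 3 * (q : ℝ) ^ N := by
    rw [← Finset.sum_filter_add_sum_filter_not T
      (fun w => ∃ L : Fin 2 → k[X], L ≠ 0 ∧ ∑ b, expand k q (L b) * mv Φ w b = 0)]
    have s3 : ∑ w ∈ T2, ((FixF q N Φ w).card : ℝ) ≤ ∑ w ∈ T2, ((KerF q N (mv Φ w)).card : ℝ) := by
      apply Finset.sum_le_sum
      intro w _
      exact_mod_cast card_fix_le hq0 Φ w
    have := s3.trans s2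
    linarith
  have hfinal : ((q : ℝ) - 1) * ((BadF q N Φ).card : ℝ) ≤
      (q : ℝ) ^ (N + 1) + 3 * (q : ℝ) ^ N := by
    have h1 : (((q - 1) * (BadF q N Φ).card : ℕ) : ℝ) ≤
        ((∑ w ∈ T, (FixF q N Φ w).card : ℕ) : ℝ) := by
      exact_mod_cast hdouble
    rw [Nat.cast_mul, Nat.cast_sub (by omega), Nat.cast_one, Nat.cast_sum] at h1
    exact h1.trans hsum
  have hR : ((BadF q N Φ).card : ℝ) ≤ 2 * (q : ℝ) ^ N := by
    have hpos : (0 : ℝ) < (q : ℝ) ^ N := by positivity
    have h4 : ((q : ℝ) - 1) * ((BadF q N Φ).card : ℝ) ≤ ((q : ℝ) - 1) * (2 * (q : ℝ) ^ N) := by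
      refine hfinal.trans ?_
      rw [pow_succ]
      nlinarith
    exact le_of_mul_le_mul_left h4 (by linarith)
  exact_mod_cast hR

end Pool.Agent.Y515.CntT

namespace Pool.Agent.Y515

open CntG CntT

/-- Part G3: the count in rank two with a row divisible by a power of the variable. -/
theorem cntTwo (k : Type) [Field k] [Fintype k] (q : ℕ) (hq : Fintype.card k = q)
    (hlat : ∀ r, Pool.Agent.Y709.LatGen k q r) : Pool.Agent.Y709.CountTwo k q := by
  classical
  intro Φ a g ρ M N hdet hf0 hdiv hf1 hqf hρ3 hρ hM hN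
  have hq0 : 0 < q := by omega
  by_cases hirr : Irr Φ
  · rw [natcard_bad]
    have h1 := bad_irred2 hq (hlat 2) hdet hirr hf0 hdiv hf1 hqf hM hρ3 (by omega) hN
    refine h1.trans ?_
    apply Nat.mul_le_mul_right
    norm_num
  · unfold Irr at hirr
    push Not at hirr
    obtain ⟨U, hU, hbot, htop⟩ := hirr
    have hf : ∀ i j, (Φ i j).natDegree ≤ a + g := by
      intro i j
      fin_cases i
      · exact (hf0 j).trans (by omega)
      · exact hf1 j
    obtain ⟨r1, r2, Φ1, Φ2, hr12, hr1, hr2, hd1, hd2, hf1, hf2, hcard⟩ :=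
      bad_red (q := q) (N := N) hq0 Φ hdet hf U hU hbot htop
    obtain rfl : r1 = 1 := by omega
    obtain rfl : r2 = 1 := by omega
    have i1 := cntGen k q hq hlat 1 Φ1 (a + g) ρ M N hd1 hf1 (by omega) (by omega) (by omega)
      (by omega) hN
    have i2 := cntGen k q hq hlat 1 Φ2 (a + g) ρ M N hd2 hf2 (by omega) (by omega) (by omega)
      (by omega) hN
    rw [natcard_bad] at i1 i2 ⊢
    refine (hcard.trans (Nat.add_le_add i1 i2)).trans (le_of_eq ?_)
    ring

end Pool.Agent.Y515
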