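import Pool.Agent.Y515.CntT.Const

/-!
The sum over the vectors with a short lattice vector, rank two with a row divisible by a power of
the variable.
-/

set_option autoImplicit false
set_option linter.unusedSectionVars false

open Polynomial Finset
open Pool.Agent.Y709 Pool.Agent.Y515.Cnt Pool.Agent.Y515.CntG

namespace Pool.Agent.Y515.CntT

variable {k : Type} [Field k] [Fintype k]

/-- a lower bound for the gain -/
theorem gain {q z : ℕ} (hq : 40 ≤ q) : 4 * (z / q) ≤ z := by
  have h2 : q * (z / q) ≤ z := Nat.mul_div_le z q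
  have h3 : 4 * (z / q) ≤ q * (z / q) := Nat.mul_le_mul_right _ (by omega)
  omega

/-- a lower bound for the gain, long distance -/
theorem gain_q {q z : ℕ} (hq : 40 ≤ q) (hz : q ≤ z) : (q - 4) + 4 * (z / q) ≤ z := by
  have h2 : q * (z / q) ≤ z := Nat.mul_div_le z q
  have h1 : 1 ≤ z / q := (Nat.le_div_iff_mul_le (by omega)).2 (by omega)
  obtain ⟨c, rfl⟩ : ∃ c, q = c + 4 := ⟨q - 4, by omega⟩
  rw [Nat.add_sub_cancel]
  have e : (c + 4) * (z / (c + 4)) = c * (z / (c + 4)) + 4 * (z / (c + 4)) := by ring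
  have h4 : c * 1 ≤ c * (z / (c + 4)) := Nat.mul_le_mul_left _ h1
  omega

/-- a lower bound for the gain, middle distance -/
theorem gain_a {q a z : ℕ} (hq : 40 ≤ q) (haq : a + 4 ≤ q) (hz : a ≤ z) : a + 4 * (z / q) ≤ z := by
  rcases Nat.lt_or_ge z q with h | h
  · rw [Nat.div_eq_of_lt h]; omega
  · have := gain_q hq h
    omega

theorem sum_short2 {q a g M N ρ : ℕ} (hqk : Fintype.card k = q)
    {Φ : Matrix (Fin 2) (Fin 2) k[X]} (hdet : Φ.det ≠ 0)
    (hdiv : ∀ j, X ^ a ∣ Φ 1 j)
    (hq : a + 2 * g + 40 ≤ q) (hM : q ≤ M)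
    (hN : N + 1 = (q - 1) * M + ρ) (T : Finset (Fin 2 → k[X]))
    (n : (Fin 2 → k[X]) → Fin 2 → k[X]) (A : (Fin 2 → k[X]) → Fin 2 → Fin 2 → k[X])
    (hT : ∀ w ∈ T, Dt q N (M - 1 + (a + g)) (mv Φ w) (n w) (A w) ∧
      (∀ j, A w 0 j = 0 ∨ (n w j).natDegree ≤ M - 1 + g) ∧
      ∃ j, (n w j).natDegree + q ≤ M - 1 + (a + g)) :
    ∑ w ∈ T, ((KerF q N (mv Φ w)).card : ℝ) ≤ (q : ℝ) ^ N := by
  classical
  have hq40 : 40 ≤ q := by omega
  have hq0 : 0 < q := by omega
  have hqR : (1 : ℝ) ≤ (q : ℝ) := by exact_mod_cast hq0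
  have hq2 : (2 : ℝ) ≤ (q : ℝ) := by
    have : 2 ≤ q := by omega
    exact_mod_cast this
  have hM1 : 1 ≤ M := by omega
  set V := M - 1 + (a + g) with hV
  set b : ℕ → ℕ := fun l => (V - l) / q with hb
  have hmvdiv : ∀ w, X ^ a ∣ mv Φ w 1 := by
    intro w
    unfold mv
    exact Finset.dvd_sum (fun j _ => Dvd.dvd.mul_right (hdiv j) _)
  have hmaps : ∀ w ∈ T, (fun j => (n w j).natDegree) ∈
      (Fintype.piFinset (fun _ : Fin 2 => Finset.range (V + 1))) := by
    intro w hw
    rw [Fintype.mem_piFinset]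
    intro j
    rw [Finset.mem_range]
    have := (hT w hw).1.hl j
    omega
  rw [← Finset.sum_fiberwise_of_maps_to hmaps]
  have hterm : ∀ l ∈ Fintype.piFinset (fun _ : Fin 2 => Finset.range (V + 1)),
      ∑ w ∈ T with (fun j => (n w j).natDegree) = l, ((KerF q N (mv Φ w)).card : ℝ) ≤
      ((q : ℝ) ^ (N + 1) / (q : ℝ) ^ 30) * ∏ j, 1 / (q : ℝ) ^ (b (l j)) := by
    intro l hl
    rw [Fintype.mem_piFinset] at hl
    set T' := T.filter (fun w => (fun j => (n w j).natDegree) = l) with hT'
    have hsub : ∀ w ∈ T', w ∈ T ∧ ∀ j, (n w j).natDegree = l j := by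
      intro w hw
      rw [hT', Finset.mem_filter] at hw
      exact ⟨hw.1, fun j => congrFun hw.2 j⟩
    rcases T'.eq_empty_or_nonempty with h0 | ⟨w0, hw0⟩
    · rw [h0, Finset.sum_empty]
      apply mul_nonneg (by positivity)
      exact Finset.prod_nonneg (fun j _ => by positivity)
    have hlV : ∀ j, l j ≤ V := by
      intro j
      have := hl j
      rw [Finset.mem_range] at this
      omega
    obtain ⟨j, hj⟩ : ∃ j, l j + q ≤ V := by
      obtain ⟨j, hj⟩ := (hT w0 (hsub w0 hw0).1).2.2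
      rw [(hsub w0 hw0).2 j] at hj
      exact ⟨j, hj⟩
    obtain ⟨j', hjj, huniv⟩ : ∃ j' : Fin 2, j ≠ j' ∧ ∀ F : Fin 2 → ℕ, ∑ i, F i = F j + F j' := by
      fin_cases j
      · exact ⟨1, by decide, fun F => by rw [Fin.sum_univ_two]; rfl⟩
      · exact ⟨0, by decide, fun F => by rw [Fin.sum_univ_two, add_comm]; rfl⟩
    -- the number of vectors
    have hcard : ∃ e1 : ℕ, T'.card * q ^ e1 ≤
        q ^ (∑ j, ((l j + 1) + 2 * ((V - l j) / q + 1))) ∧
        a + 4 * ((V - l j') / q) ≤ (V - l j') + e1 := by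
      by_cases hz : a ≤ V - l j'
      · refine ⟨0, ?_, ?_⟩
        · rw [pow_zero, mul_one]
          exact fiber_l hqk hq0 hdet T' n A (fun w hw => (hT w (hsub w hw).1).1) l
            (fun w hw => (hsub w hw).2)
        · have := gain_a (z := V - l j') hq40 (by omega : a + 4 ≤ q) hz
          omega
      · refine ⟨a, ?_, ?_⟩
        · apply fiber_div hqk hq0 hdet T' n A (fun w hw => (hT w (hsub w hw).1).1) l
            (fun w hw => (hsub w hw).2) j' (by have := hlV j'; omega) (fun w _ => hmvdiv w)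
          intro w hw
          have hD := (hT w (hsub w hw).1).1
          have h0 : A w 0 j' = 0 := by
            rcases (hT w (hsub w hw).1).2.1 j' with h | h
            · exact h
            · rw [(hsub w hw).2 j'] at h
              omega
          have hconst : A w 1 j' = C ((A w 1 j').coeff 0) := by
            apply eq_C_of_natDegree_le_zero
            by_contra hcon
            rcases hD.hA 1 j' with h | h
            · rw [h, natDegree_zero] at hcon; omega
            · have : q * 1 ≤ q * (A w 1 j').natDegree := Nat.mul_le_mul_left q (by omega)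
              rw [(hsub w hw).2 j'] at h
              omega
          refine ⟨(A w 1 j').coeff 0, ?_, hconst⟩
          intro hc0
          have hcol : ∀ i, A w i j' = 0 := by
            intro i
            fin_cases i
            · exact h0
            · show A w 1 j' = 0
              rw [hconst, hc0, map_zero]
          have hdetA : (Matrix.of (A w)).det = 0 := Matrix.det_eq_zero_of_column_eq_zero j' hcol
          obtain ⟨c, hc1, hc2⟩ := Matrix.exists_vecMul_eq_zero_iff.2 hdetA
          apply hc1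
          apply hD.hinj
          intro j2
          exact congrFun hc2 j2
        · rw [Nat.div_eq_of_lt (by omega)]
          omega
    obtain ⟨e1, hcard, he1⟩ := hcard
    set e : ℕ := ∑ j, (N + 1 + l j) / q with he
    have hone : ∀ w ∈ T', ((KerF q N (mv Φ w)).card : ℝ) ≤ (q : ℝ) ^ (N + 1) / (q : ℝ) ^ e := by
      intro w hw
      have h1 := (hT w (hsub w hw).1).1.hcount
      have h2 : ∑ j, (N + 1 + (n w j).natDegree) / q = e := by
        rw [he]
        apply Finset.sum_congr rfl
        intro j _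
        rw [(hsub w hw).2 j]
      rw [h2] at h1
      rw [le_div_iff₀ (by positivity)]
      exact_mod_cast h1
    have hexp : (∑ j, ((l j + 1) + 2 * ((V - l j) / q + 1))) + 30 + ∑ j, b (l j) ≤ e1 + e := by
      rw [huniv, huniv, he, huniv]
      have c1 := arith_col (l := l j) hq40 hM1 hN (hlV j)
      have c2 := arith_col (l := l j') hq40 hM1 hN (hlV j')
      rw [← hV] at c1 c2
      have g1 := gain_q (z := V - l j) hq40 (by omega)
      simp only [hb]
      omega
    calc ∑ w ∈ T', ((KerF q N (mv Φ w)).card : ℝ) ≤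
        ∑ w ∈ T', (q : ℝ) ^ (N + 1) / (q : ℝ) ^ e := Finset.sum_le_sum hone
      _ = (T'.card : ℝ) * ((q : ℝ) ^ (N + 1) / (q : ℝ) ^ e) := by
          rw [Finset.sum_const, nsmul_eq_mul]
      _ ≤ ((q : ℝ) ^ (∑ j, ((l j + 1) + 2 * ((V - l j) / q + 1))) / (q : ℝ) ^ e1) *
          ((q : ℝ) ^ (N + 1) / (q : ℝ) ^ e) := by
          apply mul_le_mul_of_nonneg_right _ (by positivity)
          rw [le_div_iff₀ (by positivity)]
          exact_mod_cast hcard
      _ ≤ (q : ℝ) ^ (N + 1) / (q : ℝ) ^ 30 / (q : ℝ) ^ (∑ j, b (l j)) := by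
          rw [div_mul_div_comm, div_div, div_le_div_iff₀ (by positivity) (by positivity),
            ← pow_add, ← pow_add, ← pow_add, ← pow_add, ← pow_add]
          apply pow_le_pow_right₀ hqR
          omega
      _ = _ := by
          rw [← Finset.prod_pow_eq_pow_sum, Finset.prod_div_distrib, Finset.prod_const_one]
          rw [mul_one_div]
  refine (Finset.sum_le_sum hterm).trans ?_
  rw [← Finset.mul_sum]
  have hprod : ∑ l ∈ Fintype.piFinset (fun _ : Fin 2 => Finset.range (V + 1)),
      ∏ j, 1 / (q : ℝ) ^ (b (l j)) = (∑ x ∈ Finset.range (V + 1), 1 / (q : ℝ) ^ (b x)) ^ 2 := by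
    rw [← Finset.prod_univ_sum (fun _ : Fin 2 => Finset.range (V + 1))
      (fun _ x => 1 / (q : ℝ) ^ (b x)), Finset.prod_const, Finset.card_univ, Fintype.card_fin]
  rw [hprod]
  have hs : ∑ x ∈ Finset.range (V + 1), 1 / (q : ℝ) ^ (b x) ≤ (q : ℝ) ^ 2 := by
    rw [← Finset.sum_range_reflect]
    have h1 : ∑ j ∈ Finset.range (V + 1), 1 / (q : ℝ) ^ (b (V + 1 - 1 - j)) =
        ∑ j ∈ Finset.range (V + 1), 1 / (q : ℝ) ^ (j / q) := by
      apply Finset.sum_congr rfl
      intro j hj
      rw [Finset.mem_range] at hj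
      simp only [hb]
      congr 3
      omega
    rw [h1]
    refine (sum_floor (q : ℝ) hq2 q (V + 1) hq0).trans ?_
    nlinarith
  have hs0 : 0 ≤ ∑ x ∈ Finset.range (V + 1), 1 / (q : ℝ) ^ (b x) :=
    Finset.sum_nonneg (fun x _ => by positivity)
  calc _ ≤ (q : ℝ) ^ (N + 1) / (q : ℝ) ^ 30 * ((q : ℝ) ^ 2) ^ 2 := by
        apply mul_le_mul_of_nonneg_left _ (by positivity)
        exact pow_le_pow_left₀ hs0 hs 2
    _ ≤ (q : ℝ) ^ N := by
        rw [div_mul_eq_mul_div, div_le_iff₀ (by positivity), ← pow_mul, ← pow_add, ← pow_add]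
        apply pow_le_pow_right₀ hqR
        omega

end Pool.Agent.Y515.CntT
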